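import Pool.Agent.Helper95.TT.St

set_option autoImplicit false

namespace Pool.Agent.Helper79.TT

open Pool.Agent.Helper95.TT
open Filter Topology

theorem summable_aux (V : Type) (b q : V → ℝ) (hq : ∀ v, 2 ≤ q v) (s : ℝ)
    (hs : Summable (fun v => b v * Real.log (q v) * q v ^ (-s))) :
    Summable (fun v => b v * q v ^ (-s)) := by
  have hl2 : 0 < Real.log 2 := Real.log_pos (by norm_num)
  refine Summable.of_norm_bounded (hs.abs.mul_left (1 / Real.log 2)) ?_
  intro v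
  have h1 : Real.log 2 ≤ Real.log (q v) := Real.log_le_log (by norm_num) (hq v)
  have h2 : 0 < q v ^ (-s) := Real.rpow_pos_of_pos (by linarith [hq v]) _
  rw [Real.norm_eq_abs, abs_mul, abs_mul, abs_mul, abs_of_pos (lt_of_lt_of_le hl2 h1), abs_of_pos h2]
  have h3 : 0 ≤ |b v| * q v ^ (-s) := by positivity
  have h4 : 1 ≤ 1 / Real.log 2 * Real.log (q v) := by
    rw [div_mul_eq_mul_div, one_mul, le_div_iff₀ hl2]
    linarith
  calc |b v| * q v ^ (-s) = 1 * (|b v| * q v ^ (-s)) := by ring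
    _ ≤ (1 / Real.log 2 * Real.log (q v)) * (|b v| * q v ^ (-s)) :=
        mul_le_mul_of_nonneg_right h4 h3
    _ = 1 / Real.log 2 * (|b v| * Real.log (q v) * q v ^ (-s)) := by ring

theorem deriv_aux (V : Type) (b q : V → ℝ) (hq : ∀ v, 2 ≤ q v)
    (hs : ∀ s : ℝ, 2 < s → Summable (fun v => b v * Real.log (q v) * q v ^ (-s)))
    (s : ℝ) (h2s : 2 < s) :
    HasDerivAt (fun t : ℝ => ∑' v, b v * q v ^ (-t))
      (-∑' v, b v * Real.log (q v) * q v ^ (-s)) s := by
  have hs0 : 2 < (2 + s) / 2 := by linarith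
  have key := hasDerivAt_tsum_of_isPreconnected (t := Set.Ioi ((2 + s) / 2))
    (g := fun v t => b v * q v ^ (-t)) (g' := fun v t => -(b v * Real.log (q v) * q v ^ (-t)))
    (u := fun v => |b v * Real.log (q v) * q v ^ (-((2 + s) / 2))|) (y₀ := s) (y := s)
    (hs _ hs0).abs isOpen_Ioi isPreconnected_Ioi
    (by
      intro v y _
      have hqv : 0 < q v := by linarith [hq v]
      have h1 : HasDerivAt (fun t : ℝ => q v ^ (-t)) (Real.log (q v) * (-1) * q v ^ (-y)) y :=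
        (hasDerivAt_neg' y).const_rpow hqv
      have h2 := h1.const_mul (b v)
      have e : -(b v * Real.log (q v) * q v ^ (-y)) =
        b v * (Real.log (q v) * (-1) * q v ^ (-y)) := by ring
      show HasDerivAt (fun t : ℝ => b v * q v ^ (-t)) (-(b v * Real.log (q v) * q v ^ (-y))) y
      rw [e]
      exact h2)
    (by
      intro v y hy
      have hqv : 1 ≤ q v := by linarith [hq v]
      have hy' : (2 + s) / 2 < y := hy
      rw [norm_neg, Real.norm_eq_abs, abs_mul, abs_mul (b v * Real.log (q v))]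
      refine mul_le_mul_of_nonneg_left ?_ (abs_nonneg _)
      rw [abs_of_pos (Real.rpow_pos_of_pos (by linarith) _),
        abs_of_pos (Real.rpow_pos_of_pos (by linarith) _)]
      exact Real.rpow_le_rpow_of_exponent_le hqv (by linarith))
    (by show (2 + s) / 2 < s; linarith)
    (summable_aux V b q hq s (hs s h2s))
    (by show (2 + s) / 2 < s; linarith)
  rw [tsum_neg] at key
  exact key

theorem hA10 : StA10 := by
  intro V b q hq hs G hG hGe
  set H : ℝ → ℝ := fun s => ∑' v, b v * q v ^ (-s) with hH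
  set F : ℝ → ℝ := fun s => ∑' v, b v * Real.log (q v) * q v ^ (-s) with hF
  have hder : ∀ s : ℝ, 2 < s → HasDerivAt H (-F s) s := fun s h => deriv_aux V b q hq hs s h
  -- the map from the reals to the punctured neighbourhood
  have hmap : Tendsto (fun s : ℝ => (s : ℂ)) (𝓝[>] (2 : ℝ)) (𝓝[≠] (2 : ℂ)) := by
    rw [tendsto_nhdsWithin_iff]
    constructor
    · have : Tendsto (fun s : ℝ => (s : ℂ)) (𝓝 (2 : ℝ)) (𝓝 ((2 : ℝ) : ℂ)) :=
        Complex.continuous_ofReal.tendsto 2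
      rw [Complex.ofReal_ofNat] at this
      exact this.mono_left nhdsWithin_le_nhds
    · filter_upwards [self_mem_nhdsWithin] with s hs1
      have hs2 : (2 : ℝ) < s := hs1
      intro h
      have h3 : (s : ℂ) = ((2 : ℝ) : ℂ) := by
        rw [Complex.ofReal_ofNat]; exact h
      exact hs2.ne' (Complex.ofReal_injective h3)
  have hord : meromorphicOrderAt G 2 ≠ ⊤ := by
    intro htop
    rw [meromorphicOrderAt_eq_top_iff] at htop
    have h1 := hmap.eventually htop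
    obtain ⟨s, h2, h3⟩ := (h1.and hGe).exists
    rw [h3] at h2
    have h4 : Real.exp (∑' v, b v * q v ^ (-s)) = 0 := by exact_mod_cast h2
    exact (Real.exp_pos _).ne' h4
  obtain ⟨h, hh, hh0, hhe⟩ := (meromorphicOrderAt_ne_top_iff hG).1 hord
  set n : ℤ := (meromorphicOrderAt G 2).untop₀ with hn
  have hcast : Tendsto (fun s : ℝ => (s : ℂ)) (𝓝[>] (2 : ℝ)) (𝓝 (2 : ℂ)) :=
    hmap.mono_right nhdsWithin_le_nhds
  -- the good set
  have hP : ∀ᶠ s : ℝ in 𝓝[>] 2, 2 < s ∧ ((Real.exp (H s) : ℝ) : ℂ) = ((s : ℂ) - 2) ^ n * h s ∧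
      h s ≠ 0 ∧ AnalyticAt ℂ h s := by
    have e1 : ∀ᶠ s : ℝ in 𝓝[>] (2 : ℝ), 2 < s := self_mem_nhdsWithin
    have e2 := hmap.eventually hhe
    have e3 : ∀ᶠ s : ℝ in 𝓝[>] (2 : ℝ), h s ≠ 0 :=
      (hh.continuousAt.tendsto.comp hcast).eventually_ne hh0
    have e4 : ∀ᶠ s : ℝ in 𝓝[>] (2 : ℝ), AnalyticAt ℂ h s :=
      hcast.eventually hh.eventually_analyticAt
    filter_upwards [e1, e2, e3, e4, hGe] with s a1 a2 a3 a4 a5
    refine ⟨a1, ?_, a3, a4⟩
    rw [← a5, a2, smul_eq_mul]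
  have hP2 := eventually_eventually_nhdsWithin.2 hP
  have hmain : ∀ᶠ s : ℝ in 𝓝[>] 2, (((s - 2) * F s : ℝ) : ℂ) =
      -((n : ℂ) + ((s : ℂ) - 2) * (deriv h s / h s)) := by
    filter_upwards [hP, hP2] with s a1 a2
    obtain ⟨b1, b2, b3, b4⟩ := a1
    rw [IsOpen.nhdsWithin_eq isOpen_Ioi (show s ∈ Set.Ioi (2 : ℝ) from b1)] at a2
    have hsne : (s : ℂ) - 2 ≠ 0 := by
      intro h0
      have h3 : (s : ℂ) = ((2 : ℝ) : ℂ) := by
        rw [Complex.ofReal_ofNat]; exact sub_eq_zero.1 h0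
      exact b1.ne' (Complex.ofReal_injective h3)
    have d1 : HasDerivAt (fun t : ℝ => ((Real.exp (H t) : ℝ) : ℂ))
        ((Real.exp (H s) * (-F s) : ℝ) : ℂ) s := ((hder s b1).exp).ofReal_comp
    have d2 : HasDerivAt (fun z : ℂ => (z - 2) ^ n * h z)
        ((n : ℂ) * ((s : ℂ) - 2) ^ (n - 1) * h s + ((s : ℂ) - 2) ^ n * deriv h s) (s : ℂ) := by
      have c1 : HasDerivAt (fun z : ℂ => z - 2) 1 (s : ℂ) := (hasDerivAt_id _).sub_const 2
      have c2 : HasDerivAt (fun z : ℂ => (z - 2) ^ n) ((n : ℂ) * ((s : ℂ) - 2) ^ (n - 1)) (s : ℂ) := by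
        have := (hasDerivAt_zpow n ((s : ℂ) - 2) (Or.inl hsne)).comp (s : ℂ) c1
        rw [mul_one] at this
        exact this
      exact c2.mul b4.differentiableAt.hasDerivAt
    have d3 := d2.comp_ofReal
    have d4 : HasDerivAt (fun t : ℝ => ((Real.exp (H t) : ℝ) : ℂ))
        ((n : ℂ) * ((s : ℂ) - 2) ^ (n - 1) * h s + ((s : ℂ) - 2) ^ n * deriv h s) s := by
      refine d3.congr_of_eventuallyEq ?_
      filter_upwards [a2] with t ht
      exact ht.2.1
    have d5 := d1.unique d4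
    have hz : ((s : ℂ) - 2) ^ n = ((s : ℂ) - 2) ^ (n - 1) * ((s : ℂ) - 2) := by
      rw [← zpow_add_one₀ hsne, sub_add_cancel]
    have hzne : ((s : ℂ) - 2) ^ (n - 1) ≠ 0 := zpow_ne_zero _ hsne
    rw [Complex.ofReal_mul, b2, hz] at d5
    generalize ((s : ℂ) - 2) ^ (n - 1) = Z at d5 hzne
    push_cast at d5 ⊢
    generalize (s : ℂ) - 2 = w at d5 hsne ⊢
    generalize deriv h (s : ℂ) = h' at d5 ⊢
    generalize h (s : ℂ) = hs' at d5 b3 ⊢
    generalize ((F s : ℝ) : ℂ) = f at d5 ⊢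
    have h6 : Z * (w * hs' * (-f)) = Z * (n * hs' + w * h') := by
      calc Z * (w * hs' * (-f)) = Z * w * hs' * (-f) := by ring
        _ = n * Z * hs' + Z * w * h' := d5
        _ = Z * (n * hs' + w * h') := by ring
    have h7 := mul_left_cancel₀ hzne h6
    field_simp
    linear_combination -h7
  have hlim : Tendsto (fun s : ℝ => -((n : ℂ) + ((s : ℂ) - 2) * (deriv h s / h s))) (𝓝[>] 2)
      (𝓝 (-((n : ℂ) + (2 - 2) * (deriv h 2 / h 2)))) := by
    refine Tendsto.neg (Tendsto.add tendsto_const_nhds (Tendsto.mul ?_ (Tendsto.div ?_ ?_ hh0)))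
    · exact hcast.sub_const 2
    · exact hh.deriv.continuousAt.tendsto.comp hcast
    · exact hh.continuousAt.tendsto.comp hcast
  have hlim2 : Tendsto (fun s : ℝ => (((s - 2) * F s : ℝ) : ℂ)) (𝓝[>] 2)
      (𝓝 (-((n : ℂ) + (2 - 2) * (deriv h 2 / h 2)))) :=
    hlim.congr' (hmain.mono fun s h => h.symm)
  refine ⟨-n, ?_⟩
  have h8 := (Complex.continuous_re.tendsto _).comp hlim2
  have h9 : (-((n : ℂ) + (2 - 2) * (deriv h 2 / h 2))).re = (((-n : ℤ)) : ℝ) := by
    simp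
  rw [h9] at h8
  exact h8

end Pool.Agent.Helper79.TT
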